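import Mathlib
import Pool.Agent.H27.Anti4

open FirstOrder Pool.Agent.H27.Anti4

universe u

theorem Pool.Agent.Results.MP_d71e54_al.NoSharp2.result :
    ∃ (L : FirstOrder.Language.{0, 0}) (_ : L.IsRelational) (M : Type) (_ : L.Structure M),
      Countable M ∧ Infinite M ∧ L.IsUltrahomogeneous M ∧ StrongAmalg L M ∧
      (∀ a b : Fin 3 → M, Function.Injective a → Function.Injective b →
        ∃ e : M ≃[L] M, ∀ i, e (a i) = b i) ∧
      ∀ (G : Type u) [Group G] [MulAction G M], ByAut L M G → ¬ Sharp L M 2 G :=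
  ⟨L4, inferInstance, M, inferInstance, inferInstance, inferInstance, ultrahom, strong, trans3,
    fun G _ _ => not_sharp G⟩
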